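import Mathlib
import Pool.Agent.Helper43_EOR.Final

set_option autoImplicit false

/-! # The non-regular matroids in which every element has a regular deletion or a regular contraction

The types are those of the structure theorem of `Pool/Agent/Helper43_EOR` (for the definitions see
`Pool/Agent/Helper43_EOR/Defs.lean`). -/

namespace Pool.Agent.Results.MP_423401_co.AtLeastOneRegular

open Set Matroid Pool.Agent.Helper43_EOR

/-- A finite matroid `M` is not regular and has, for every element `e`, a regular deletion
`M ＼ {e}` or a regular contraction `M ／ {e}` if and only if its ground set has a partition into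
`A` and `B` such that `M` is of one of the nine types with respect to `(A, B)`, or its dual is with
respect to `(B, A)`, and for some set `X` of elements the minor `M ／ (A \ X) ＼ (B \ X)` is
`U_{2,4}`, the Fano matroid or its dual. -/
theorem result {α : Type*} (M : Matroid α) (hfin : M.E.Finite) :
    (¬ Regular M ∧ ∀ e ∈ M.E, Regular (M ＼ {e}) ∨ Regular (M ／ {e})) ↔
      ∃ A B : Set α, A ∪ B = M.E ∧ Disjoint A B ∧ (Typed M A B ∨ Typed M✶ B A) ∧
        ∃ X ⊆ M.E, IsCore (M ／ (A \ X) ＼ (B \ X)) := by
  simp only [← typed_iff]
  constructor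
  · rintro ⟨hN, hE⟩
    have hL : Lab M {e | e ∈ M.E ∧ Regular (M ＼ {e})} {e | e ∈ M.E ∧ ¬ Regular (M ＼ {e})} := by
      refine ⟨hfin, ?_, ?_, fun a ha => ha.2, fun b hb => (hE b hb.1).resolve_left hb.2⟩
      · ext x
        simp only [mem_union, mem_setOf_eq]
        tauto
      · rw [Set.disjoint_left]
        rintro x ⟨-, h1⟩ ⟨-, h2⟩
        exact h2 h1
    obtain ⟨X, hX, hc⟩ := hL.core hN
    exact ⟨_, _, hL.cover, hL.disj, typed_of_lab hL hN, X, hX, hc⟩
  · rintro ⟨A, B, hAB, hd, hT, X, hX, hc⟩
    have hL : Lab M A B := by
      rcases hT with hT | hT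
      · exact lab_of_typed hfin hAB hd hT
      · have hLd : Lab M✶ B A := lab_of_typed (by exact hfin)
          (by rw [Matroid.dual_ground, Set.union_comm]; exact hAB) hd.symm hT
        have := hLd.dual
        rwa [Matroid.dual_dual] at this
    refine ⟨fun hreg => core_not_regular (asm_con_fin hL.fin _ _) hc
      ((Regular.contract hL.fin hreg _).delete _), fun e he => ?_⟩
    rw [← hL.cover] at he
    rcases he with hA | hB
    · exact Or.inl (hL.del e hA)
    · exact Or.inr (hL.con e hB)

end Pool.Agent.Results.MP_423401_co.AtLeastOneRegular
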